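import Pool.Agent.W555.GL.Stm

set_option autoImplicit false

namespace Pool.Agent.W639.GL

open Pool.Agent.W555.GL

section

variable {L : Type} [CompleteLattice L] {rk : L → ℕ} {r : ℕ}

lemma rk_le (hR : RkData L rk r) {x y : L} (h : x ≤ y) : rk x ≤ rk y := by
  rcases h.lt_or_eq with h | h
  · exact (hR.mono x y h).le
  · rw [h]

lemma eq_of_le (hR : RkData L rk r) {x y : L} (h : x ≤ y) (h2 : rk y ≤ rk x) : x = y := by
  rcases h.lt_or_eq with h | h
  · exact absurd (hR.mono x y h) (by omega)
  · exact h

lemma rk_atom (hR : RkData L rk r) {z : L} (hz : IsAtom z) : rk z = 1 := by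
  have := hR.atom ⊥ z hz (by rw [le_bot_iff]; exact hz.1)
  rw [bot_sup_eq, hR.bot] at this
  omega

lemma eq_bot (hR : RkData L rk r) {z : L} (hz : rk z = 0) : z = ⊥ :=
  (eq_of_le hR bot_le (by rw [hR.bot, hz])).symm

lemma exists_compl (hR : RkData L rk r) {z H : L} (hz : IsAtom z) (hzH : z ≤ H) :
    ∃ K : L, ¬ z ≤ K ∧ K ⊔ z = H ∧ rk H = rk K + 1 := by
  classical
  have hex : ∃ n, ∃ K : L, K ≤ H ∧ ¬ z ≤ K ∧ rk H - rk K = n :=
    ⟨_, ⊥, bot_le, by rw [le_bot_iff]; exact hz.1, rfl⟩
  obtain ⟨K, hKH, hzK, hn⟩ := Nat.find_spec hex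
  have hmax : ∀ K' : L, K' ≤ H → ¬ z ≤ K' → rk K' ≤ rk K := by
    intro K' h1 h2
    have h3 := Nat.find_min' hex ⟨K', h1, h2, rfl⟩
    rw [← hn] at h3
    have h4 := rk_le hR hKH
    have h5 := rk_le hR h1
    omega
  have hle : K ⊔ z ≤ H := sup_le hKH hzH
  have heq : K ⊔ z = H := by
    rcases hle.lt_or_eq with h | h
    · exfalso
      obtain ⟨a, ha, haH, haK⟩ := hR.gen _ _ h
      have haK' : ¬ a ≤ K := fun h' => haK (h'.trans le_sup_left)
      have h1 := hR.atom K a ha haK'
      have h2 : z ≤ K ⊔ a := by
        by_contra hcon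
        have := hmax (K ⊔ a) (sup_le hKH haH) hcon
        omega
      have h3 : K ⊔ z ≤ K ⊔ a := sup_le le_sup_left h2
      have h4 := hR.atom K z hz hzK
      have h5 := eq_of_le hR h3 (by omega)
      apply haK
      rw [h5]
      exact le_sup_right
    · exact h
  exact ⟨K, hzK, heq, by rw [← heq]; exact hR.atom K z hz hzK⟩

end

theorem two (hta : StTowA) : StTwo := by
  intro L _ rk r hR Z z H hz hzZ hHZ hHz
  obtain ⟨d, hd, hdZ, hdH⟩ := hR.gen _ _ hHZ.lt
  have hrd := hR.atom H d hd hdH
  have hHd : H ⊔ d = Z := by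
    have h1 : H < H ⊔ d := by
      rw [left_lt_sup]
      exact hdH
    have h2 : H ⊔ d ≤ Z := sup_le hHZ.le hdZ
    rcases h2.lt_or_eq with h | h
    · exact absurd h (hHZ.2 h1)
    · exact h
  rw [hHd] at hrd
  by_cases hzH : z ≤ H
  · obtain ⟨K, hzK, hKz, hrK⟩ := exists_compl hR hz hzH
    obtain ⟨V, hV, -, hVK⟩ := hta L rk r hR K K le_rfl
    have hrz := rk_atom hR hz
    have hzH' : z < H := lt_of_le_of_ne hzH (Ne.symm hHz)
    have hH2 : 2 ≤ rk H := by
      have := hR.mono _ _ hzH'
      omega
    have hdz : ¬ d ≤ z := fun h => hdH (h.trans hzH)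
    have hrzd := hR.atom z d hd hdz
    obtain ⟨T, hT, hT2, hTZ⟩ := hta L rk r hR (z ⊔ d) Z (sup_le hzZ hdZ)
    rw [hrzd, hrz] at hT2
    have hT2' : T 2 = z ⊔ d := hT2
    have hT0 : T 0 = ⊥ := eq_bot hR (hT.1 0 (Nat.zero_le _))
    have hzT : ∀ i, 2 ≤ i → i ≤ rk Z → z ⊔ d ≤ T i := by
      intro i h1 h2
      rw [← hT2']
      exact hT.2 2 i h1 h2
    refine ⟨fun i => if i = 1 then z else T i, fun i => if i ≤ rk K then V i else H, ?_, ?_, ?_,
      ?_, ?_, ?_⟩
    · constructor
      · intro i hi
        by_cases h : i = 1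
        · simp [h, hrz]
        · simp only [h, if_false]
          exact hT.1 i hi
      · intro i j hij hj
        by_cases h : i = 1
        · by_cases h' : j = 1
          · simp [h, h']
          · simp only [h, h', if_true, if_false]
            exact le_sup_left.trans (hzT j (by omega) hj)
        · by_cases h' : j = 1
          · have h0 : i = 0 := by omega
            simp only [h, h', if_true, if_false, h0, hT0]
            simp
          · simp only [h, h', if_false]
            exact hT.2 i j hij hj
    · constructor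
      · intro i hi
        by_cases h : i ≤ rk K
        · simp only [h, if_true]
          exact hV.1 i h
        · simp only [h, if_false]
          omega
      · intro i j hij hj
        by_cases h : i ≤ rk K
        · by_cases h' : j ≤ rk K
          · simp only [h, h', if_true]
            exact hV.2 i j hij h'
          · simp only [h, h', if_true, if_false]
            calc V i ≤ V (rk K) := hV.2 i _ h le_rfl
              _ = K := hVK
              _ ≤ H := by rw [← hKz]; exact le_sup_left
        · have h' : ¬ j ≤ rk K := by omega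
          simp [h, h']
    · simp
    · have h : rk Z ≠ 1 := by omega
      simp [h, hTZ]
    · have h : ¬ rk H ≤ rk K := by omega
      simp [h]
    · intro i h1 h2 heq
      by_cases h : i ≤ rk K
      · have hzW : z ≤ if i = 1 then z else T i := by
          by_cases h' : i = 1
          · simp [h']
          · simp only [h', if_false]
            exact le_sup_left.trans (hzT i (by omega) (by omega))
        simp only at heq
        rw [heq] at hzW
        simp only [h, if_true] at hzW
        exact hzK (hzW.trans ((hV.2 i _ h le_rfl).trans hVK.le))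
      · have h' : i ≠ 1 := by omega
        simp only [h, h', if_false] at heq
        apply hdH
        rw [← heq]
        exact le_sup_right.trans (hzT i (by omega) (by omega))
  · obtain ⟨W, hW, hW1, hWZ⟩ := hta L rk r hR z Z hzZ
    obtain ⟨W', hW', -, hWH⟩ := hta L rk r hR H H le_rfl
    have hrz := rk_atom hR hz
    rw [hrz] at hW1
    refine ⟨W, W', hW, hW', hW1, hWZ, hWH, fun i h1 h2 heq => hzH ?_⟩
    calc z = W 1 := hW1.symm
      _ ≤ W i := hW.2 1 i h1 (by omega)
      _ = W' i := heq
      _ ≤ W' (rk H) := hW'.2 i _ h2 le_rfl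
      _ = H := hWH

end Pool.Agent.W639.GL
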